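import Pool.Agent.W550.LG2.Stm

/-! LG2-KK for MP_7dd29b_gt: the derivative vanishes on pairs of kernel vectors. -/
set_option autoImplicit false
open scoped InnerProductSpace

namespace Pool.Agent.W958.LG2KK

open Pool.Agent.W550.LG2 Pool.Agent.W617.LG

theorem kk (hSYM : S_SYM) (hKER : S_KER) : S_KK := by
  intro q C τ hL r hM y hy hRK w w' hw hw'
  obtain ⟨v, hv⟩ := hRK
  obtain ⟨-, h2⟩ := hKER q C τ hL r hM y v hy hv
  have hc : ∀ a, C y a w' = 0 := by
    intro a
    rw [hL.comm12 y hy a w', hw']; rfl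
  have key : ∀ a, fderiv ℝ C y a w w' = 0 := by
    intro a
    refine Submodule.span_induction (p := fun (A : E q →L[ℝ] E q) _ => A w' = 0) ?_ ?_ ?_ ?_
      (h2 a w hw)
    · rintro _ ⟨i, rfl⟩
      exact hc (v i)
    · simp
    · intro A B _ _ hA hB
      simp [hA, hB]
    · intro c A _ hA
      simp [hA]
  refine ⟨?_, key⟩
  ext1 b
  have s := hSYM q C τ hL y hy
  rw [(s w w' b b).2.1, (s w b w' w').1, key b]
  rfl

end Pool.Agent.W958.LG2KK
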